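import Pool.Agent.W326.DU.Stm

/-!
# DU-GRP: existence of the group (MP_9fa67c_al)
-/

set_option autoImplicit false

namespace Pool.Agent.W490.DU

open Pool.Agent.W326.DU

section il
variable (R : Type) [CommRing R] {G : Type} [Group G]

theorem of_sub_mem_IL {X : Set G} {g : G} (hg : g ∈ Subgroup.closure X) :
    MonoidAlgebra.of R G g - 1 ∈ IL R X := by
  refine Subgroup.closure_induction (p := fun g _ => MonoidAlgebra.of R G g - 1 ∈ IL R X)
    ?_ ?_ ?_ ?_ hg
  · intro x hx
    exact Submodule.subset_span ⟨x, hx, rfl⟩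
  · rw [map_one, sub_self]
    exact Submodule.zero_mem _
  · intro x y _ _ hx hy
    have : MonoidAlgebra.of R G (x * y) - 1
        = MonoidAlgebra.of R G x • (MonoidAlgebra.of R G y - 1)
          + (MonoidAlgebra.of R G x - 1) := by
      rw [map_mul, smul_eq_mul]; noncomm_ring
    rw [this]
    exact Submodule.add_mem _ (Submodule.smul_mem _ _ hy) hx
  · intro x _ hx
    have h1 : MonoidAlgebra.of R G x⁻¹ * MonoidAlgebra.of R G x = 1 := by
      rw [← map_mul, inv_mul_cancel, map_one]
    have : MonoidAlgebra.of R G x⁻¹ - 1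
        = (- MonoidAlgebra.of R G x⁻¹) • (MonoidAlgebra.of R G x - 1) := by
      rw [smul_eq_mul, neg_mul, mul_sub, h1, mul_one]; abel
    rw [this]
    exact Submodule.smul_mem _ _ hx

theorem IL_le {X Y : Set G} (h : X ⊆ Subgroup.closure Y) : IL R X ≤ IL R Y := by
  refine Submodule.span_le.2 ?_
  rintro _ ⟨x, hx, rfl⟩
  exact of_sub_mem_IL R (h hx)

theorem mem_Im_iff (s : Fin 10 → G) (S : Set (Fin 10)) (x : MonoidAlgebra R G) :
    x ∈ Im (Rf R s) S ↔ x ∈ IL R (s '' S) := by
  constructor
  · intro h
    have hle : Im (Rf R s) S ≤ (IL R (s '' S)).toAddSubgroup := by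
      refine iSup_le fun v => iSup_le fun hv => ?_
      rintro _ ⟨z, rfl⟩
      change z * (MonoidAlgebra.of R G (s v) - 1) ∈ IL R (s '' S)
      exact Submodule.smul_mem _ z (Submodule.subset_span ⟨s v, ⟨v, hv, rfl⟩, rfl⟩)
    exact hle h
  · intro h
    refine Submodule.span_induction (p := fun x _ => x ∈ Im (Rf R s) S) ?_ ?_ ?_ ?_ h
    · rintro _ ⟨_, ⟨v, hv, rfl⟩, rfl⟩
      refine (le_iSup_of_le v (le_iSup_of_le hv le_rfl) :
        (Rf R s v).range ≤ Im (Rf R s) S) ⟨1, ?_⟩
      change 1 * (MonoidAlgebra.of R G (s v) - 1) = _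
      rw [one_mul]
    · exact zero_mem _
    · intro x y _ _ hx hy
      exact add_mem hx hy
    · intro a x _ hx
      have hle : (Im (Rf R s) S).map (AddMonoidHom.mulLeft a) ≤ Im (Rf R s) S := by
        unfold Im
        rw [AddSubgroup.map_iSup]
        refine iSup_le fun v => ?_
        rw [AddSubgroup.map_iSup]
        refine iSup_le fun hv => ?_
        refine le_trans ?_ (le_iSup_of_le v (le_iSup_of_le hv le_rfl))
        rintro _ ⟨_, ⟨z, rfl⟩, rfl⟩
        refine ⟨a * z, ?_⟩
        change (a * z) * (MonoidAlgebra.of R G (s v) - 1)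
          = a * (z * (MonoidAlgebra.of R G (s v) - 1))
        rw [mul_assoc]
      exact hle ⟨x, hx, rfl⟩

end il

theorem comm_sub_one {A : Type} [Ring A] {p q : A} (h : p * q = q * p) :
    (p - 1) * (q - 1) = (q - 1) * (p - 1) := by
  have h1 : Commute p q := h
  exact (h1.sub_left (Commute.one_left _)).sub_right (Commute.one_right _)

theorem adj_symm : ∀ a b : Fin 10, adj a b → adj b a := by
  intro a b h
  obtain ⟨i, hi⟩ := h
  exact ⟨i, hi.symm⟩

theorem adj_irr : ∀ a : Fin 10, ¬ adj a a := by decide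

theorem adj4_mm : ∀ a b : Fin 4, adj4 a b ↔ adj (mm a) (mm b) := by decide

theorem adj4_pp : ∀ a b : Fin 4, adj4 a b ↔ adj (pp a) (pp b) := by decide

theorem mm_inj : Function.Injective mm := by decide

theorem pp_inj : Function.Injective pp := by decide

theorem gen_comm {W : Type} (ad : W → W → Prop) {a b : W} (h : ad a b) :
    gen ad a * gen ad b = gen ad b * gen ad a := by
  have h1 : (PresentedGroup.mk (rels ad))
      (FreeGroup.of a * FreeGroup.of b * (FreeGroup.of a)⁻¹ * (FreeGroup.of b)⁻¹) = 1 :=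
    PresentedGroup.one_of_mem ⟨a, b, h, rfl⟩
  rw [map_mul, map_mul, map_mul, map_inv, map_inv] at h1
  change gen ad a * gen ad b * (gen ad a)⁻¹ * (gen ad b)⁻¹ = 1 at h1
  rw [mul_inv_eq_one, mul_inv_eq_iff_eq_mul] at h1
  exact h1

theorem closure_gen {W : Type} (ad : W → W → Prop) :
    Subgroup.closure (Set.range (gen ad)) = ⊤ :=
  PresentedGroup.closure_range_of (rels ad)

theorem th (h1 : PropRG) (h2 : PropSUB) (h3 : PropBC) (h4 : PropHN) : PropGRP := by
  obtain ⟨iM, hM, hMi⟩ := h2 (Fin 10) (Fin 4) adj adj4 mm mm_inj adj4_mm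
  obtain ⟨iP, hP, hPi⟩ := h2 (Fin 10) (Fin 4) adj adj4 pp pp_inj adj4_pp
  let A : Subgroup (RAAG adj) := iM.range
  let B : Subgroup (RAAG adj) := iP.range
  let φ : A ≃* B := (MonoidHom.ofInjective hMi).symm.trans (MonoidHom.ofInjective hPi)
  let G : Type := HNNExtension (RAAG adj) A B φ
  let s : Fin 10 → G := fun v => HNNExtension.of (gen adj v)
  let t : G := HNNExtension.t
  have hofinj : Function.Injective (HNNExtension.of : RAAG adj → G) :=
    HNNExtension.of_injective (φ := φ)
  have hcl : ∀ g : RAAG adj, (HNNExtension.of g : G) ∈ Subgroup.closure (Set.range s) := by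
    intro g
    have hg : g ∈ Subgroup.closure (Set.range (gen adj)) := by
      rw [closure_gen]; exact Subgroup.mem_top _
    have hm : (HNNExtension.of g : G) ∈
        (Subgroup.closure (Set.range (gen adj))).map (HNNExtension.of : RAAG adj →* G) :=
      ⟨g, hg, rfl⟩
    rw [MonoidHom.map_closure, ← Set.range_comp] at hm
    exact hm
  refine ⟨G, inferInstance, s, t, ?_⟩
  refine ⟨?_, ?_, ?_, ?_, ?_⟩
  · -- conj
    intro k
    have hk : gen adj (mm k) ∈ A := ⟨gen adj4 k, hM k⟩
    have hφ : ((φ ⟨gen adj (mm k), hk⟩ : B) : RAAG adj) = gen adj (pp k) := by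
      have h0 : (⟨gen adj (mm k), hk⟩ : A) = MonoidHom.ofInjective hMi (gen adj4 k) := by
        apply Subtype.ext
        rw [MonoidHom.ofInjective_apply]
        exact (hM k).symm
      have h5 : (MonoidHom.ofInjective hMi).symm ⟨gen adj (mm k), hk⟩ = gen adj4 k := by
        rw [h0]; exact MulEquiv.symm_apply_apply _ _
      change ((MonoidHom.ofInjective hPi)
        ((MonoidHom.ofInjective hMi).symm ⟨gen adj (mm k), hk⟩) : RAAG adj) = _
      rw [h5, MonoidHom.ofInjective_apply]
      exact hP k
    have := HNNExtension.t_mul_of (φ := φ) (⟨gen adj (mm k), hk⟩ : A)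
    rw [hφ] at this
    exact this
  · -- reg
    intro R _
    constructor
    · intro a b hab x
      change x * (MonoidAlgebra.of R G (s b) - 1) * (MonoidAlgebra.of R G (s a) - 1)
        = x * (MonoidAlgebra.of R G (s a) - 1) * (MonoidAlgebra.of R G (s b) - 1)
      have hs : s b * s a = s a * s b := by
        change (HNNExtension.of (gen adj b) : G) * HNNExtension.of (gen adj a)
          = HNNExtension.of (gen adj a) * HNNExtension.of (gen adj b)
        exact (map_mul (HNNExtension.of : RAAG adj →* G) _ _).symm.trans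
          ((congrArg _ (gen_comm adj hab).symm).trans
            (map_mul (HNNExtension.of : RAAG adj →* G) _ _))
      have hc : MonoidAlgebra.of R G (s b) * MonoidAlgebra.of R G (s a)
          = MonoidAlgebra.of R G (s a) * MonoidAlgebra.of R G (s b) :=
        (map_mul (MonoidAlgebra.of R G) _ _).symm.trans ((congrArg _ hs).trans
          (map_mul (MonoidAlgebra.of R G) _ _))
      have hc2 : (MonoidAlgebra.of R G (s b) - 1) * (MonoidAlgebra.of R G (s a) - 1)
          = (MonoidAlgebra.of R G (s a) - 1) * (MonoidAlgebra.of R G (s b) - 1) :=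
        comm_sub_one hc
      rw [mul_assoc, mul_assoc, hc2]
    · intro S v hv x hx
      rw [mem_Im_iff] at hx ⊢
      let W' : Type := {w : Fin 10 // w ∈ S ∨ w = v}
      let ad' : W' → W' → Prop := fun a b => adj a.1 b.1
      obtain ⟨F, hF, hFi⟩ := h2 (Fin 10) W' adj ad' (fun w => w.1) Subtype.val_injective
        (fun a b => Iff.rfl)
      let ι : RAAG ad' →* G := (HNNExtension.of : RAAG adj →* G).comp F
      have hι : Function.Injective ι := hofinj.comp hFi
      have hιg : ∀ w : W', ι (gen ad' w) = s w.1 := by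
        intro w
        change (HNNExtension.of (F (gen ad' w)) : G) = _
        rw [hF]
      let v' : W' := ⟨v, Or.inr rfl⟩
      have hst := h3 R (RAAG ad') G ι hι _ _ _
        (h1 R W' ad' (fun a b h => adj_symm _ _ h) (fun a h => adj_irr _ h) v')
      have e1 : ι '' (gen ad' '' {w | w ≠ v'}) = s '' S := by
        ext g
        constructor
        · rintro ⟨_, ⟨w, hw, rfl⟩, rfl⟩
          refine ⟨w.1, ?_, (hιg w).symm⟩
          rcases w.2 with h | h
          · exact h
          · exact absurd (Subtype.ext h) hw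
        · rintro ⟨w, hw, rfl⟩
          refine ⟨_, ⟨⟨w, Or.inl hw⟩, ?_, rfl⟩, hιg _⟩
          intro h
          have : w = v := congrArg Subtype.val h
          exact hv (this ▸ hw)
      have e2 : ι '' (gen ad' '' {w | ad' w v'}) = s '' {w | w ∈ S ∧ adj w v} := by
        ext g
        constructor
        · rintro ⟨_, ⟨w, hw, rfl⟩, rfl⟩
          have hw' : adj w.1 v := hw
          refine ⟨w.1, ⟨?_, hw'⟩, (hιg w).symm⟩
          rcases w.2 with h | h
          · exact h
          · rw [h] at hw'
            exact absurd hw' (adj_irr v)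
        · rintro ⟨w, ⟨hw, hwv⟩, rfl⟩
          exact ⟨_, ⟨⟨w, Or.inl hw⟩, hwv, rfl⟩, hιg _⟩
      rw [e1, e2, hιg] at hst
      exact hst x hx
  · -- star_t
    intro R _ x hx
    rw [mem_Im_iff] at hx ⊢
    have hst := h4 R (RAAG adj) A B φ
    have hx' : x * (MonoidAlgebra.of R G t - 1)
        ∈ IL R (Set.range (HNNExtension.of : RAAG adj → G)) := by
      rw [mul_sub, mul_one]
      refine IL_le R ?_ hx
      rintro _ ⟨v, _, rfl⟩
      exact Subgroup.subset_closure ⟨gen adj v, rfl⟩
    have hx2 := hst x hx'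
    refine IL_le R ?_ hx2
    rintro _ ⟨b, ⟨w, rfl⟩, rfl⟩
    have hw : w ∈ Subgroup.closure (Set.range (gen adj4)) := by
      rw [closure_gen]; exact Subgroup.mem_top _
    have hm : (HNNExtension.of (iP w) : G) ∈
        (Subgroup.closure (Set.range (gen adj4))).map
          ((HNNExtension.of : RAAG adj →* G).comp iP) := ⟨w, hw, rfl⟩
    rw [MonoidHom.map_closure, ← Set.range_comp] at hm
    refine Subgroup.closure_mono ?_ hm
    rintro _ ⟨k, rfl⟩
    refine ⟨pp k, ⟨k, rfl⟩, ?_⟩
    change (HNNExtension.of (gen adj (pp k)) : G) = HNNExtension.of (iP (gen adj4 k))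
    rw [hP]
  · -- gen
    rw [eq_top_iff]
    rintro g -
    refine HNNExtension.induction_on (motive := fun g => g ∈ Subgroup.closure (Set.range s ∪ {t}))
      g ?_ ?_ ?_ ?_
    · intro g
      exact Subgroup.closure_mono Set.subset_union_left (hcl g)
    · exact Subgroup.subset_closure (Or.inr rfl)
    · intro x y hx hy
      exact mul_mem hx hy
    · intro x hx
      exact inv_mem hx
  · -- inf
    intro n hn h
    let L : G →* Multiplicative ℤ := HNNExtension.lift (1 : RAAG adj →* Multiplicative ℤ)
      (Multiplicative.ofAdd 1) (fun a => by simp)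
    have hL : L t = Multiplicative.ofAdd 1 := HNNExtension.lift_t _ _ _
    have h5 : L (t ^ n) = 1 := by rw [h, map_one]
    rw [map_pow, hL, ← ofAdd_nsmul, ← ofAdd_zero] at h5
    have h6 := Multiplicative.ofAdd.injective h5
    simp at h6
    omega

end Pool.Agent.W490.DU
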